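import Pool.Agent.Q266.RP.Stm

/-!
JOB FALL of project RP (helper266): the power theorem for all exponents `p ^ k`.
-/

namespace Pool.Agent.Q181.RP

open Pool.Agent.Q266.RP

theorem fallAux (hsub : S_SUB) (hfone : S_FONE) (p : ℕ) [Fact p.Prime] (k : ℕ) :
    ∀ (G : Type) [Group G] [Finite G], IsPGroup p G → Regular p G → ∀ a b : G,
      a ^ (p ^ k) = b ^ (p ^ k) ↔ (a⁻¹ * b) ^ (p ^ k) = 1 := by
  induction k with
  | zero =>
    intro G _ _ _ _ a b
    simp only [pow_zero, pow_one]
    exact (inv_mul_eq_one).symm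
  | succ k ih =>
    intro G _ _ hG hreg a b
    have h1 : PowOne p G := hfone p G hG hreg
    let Om : Subgroup G :=
      { carrier := {g | g ^ p = 1}
        one_mem' := one_pow p
        mul_mem' := by
          intro u v hu hv
          have hu' : u ^ p = 1 := hu
          have hv' : v ^ p = 1 := hv
          have h := (h1 u⁻¹ v).1 (by rw [inv_pow, hu', hv', inv_one])
          rw [inv_inv] at h
          exact h
        inv_mem' := by
          intro u hu
          have hu' : u ^ p = 1 := hu
          show u⁻¹ ^ p = 1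
          rw [inv_pow, hu', inv_one] }
    have hmem : ∀ g : G, g ∈ Om ↔ g ^ p = 1 := fun g => Iff.rfl
    haveI hn : Om.Normal := ⟨fun n hn g => by
      rw [hmem] at hn ⊢
      rw [conj_pow, hn, mul_one, mul_inv_cancel]⟩
    have h2 := ih (G ⧸ Om) (hG.to_quotient Om) (hsub.2 p G Om hreg)
      (QuotientGroup.mk a) (QuotientGroup.mk b)
    rw [← QuotientGroup.mk_pow, ← QuotientGroup.mk_pow, ← QuotientGroup.mk_inv,
      ← QuotientGroup.mk_mul, ← QuotientGroup.mk_pow, QuotientGroup.eq,
      QuotientGroup.eq_one_iff, hmem, hmem] at h2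
    rw [pow_succ, pow_mul, pow_mul, pow_mul, h1]
    exact h2

/-- JOB FALL. -/
theorem fall : S_SUB → S_FONE → S_FALL := by
  intro hsub hfone p _ G _ _ hG hreg k a b
  exact fallAux hsub hfone p k G hG hreg a b

end Pool.Agent.Q181.RP
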